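import Pool.Agent.H369.AS.Stm
import Pool.Graph.R_seed8.TH549.CK.P21

set_option autoImplicit false

namespace Pool.Agent.H390.AS

open TensorProduct Pool.Agent.TH549.CK Pool.Agent.H369.TH Pool.Agent.H369.CFG Pool.Agent.H369.SM
open Pool.Agent.H369.PL Pool.Agent.H369.RE Pool.Agent.H369.CB Pool.Agent.H369.AS

theorem desc : S_desc := by
  intro B F _ _ _ _ hinj I _ c hc
  classical
  obtain ⟨i0, hi0⟩ := Function.ne_iff.1 hc
  set Q := FractionRing B
  set lf : Q →+* F := IsFractionRing.lift (A := B) (K := Q) (g := algebraMap B F) hinj with hlf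
  have hlfa : ∀ b : B, lf (algebraMap B Q b) = algebraMap B F b := fun b =>
    IsFractionRing.lift_algebraMap hinj b
  set W : Submodule Q (I → Q) := Submodule.span Q
    {x : I → Q | ∃ l : I → B, (∑ i, c i * algebraMap B F (l i) = 0) ∧
      x = fun i => algebraMap B Q (l i)} with hW
  have hWz : ∀ x ∈ W, ∑ i, c i * lf (x i) = 0 := by
    intro x hx
    induction hx using Submodule.span_induction with
    | mem x hx =>
      obtain ⟨l, hl, rfl⟩ := hx
      simp_rw [hlfa]
      exact hl
    | zero =>
      exact Finset.sum_eq_zero fun i _ => by rw [Pi.zero_apply, map_zero, mul_zero]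
    | add x y _ _ hx hy =>
      simp_rw [Pi.add_apply, map_add, mul_add]
      rw [Finset.sum_add_distrib, hx, hy, add_zero]
    | smul q x _ hx =>
      simp_rw [Pi.smul_apply, smul_eq_mul, map_mul]
      have h1 : ∑ i, c i * (lf q * lf (x i)) = lf q * ∑ i, c i * lf (x i) := by
        rw [Finset.mul_sum]
        exact Finset.sum_congr rfl fun i _ => by ring
      rw [h1, hx, mul_zero]
  have hWtop : W < ⊤ := by
    rw [lt_top_iff_ne_top]
    intro h
    have h1 : (Pi.single i0 (1 : Q) : I → Q) ∈ W := by rw [h]; exact Submodule.mem_top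
    have h2 := hWz _ h1
    rw [Finset.sum_eq_single i0] at h2
    · rw [Pi.single_eq_same, map_one, mul_one] at h2
      exact hi0 h2
    · intro i _ hi
      rw [Pi.single_eq_of_ne hi, map_zero, mul_zero]
    · intro h
      exact absurd (Finset.mem_univ _) h
  obtain ⟨φ, hφ0, hφW⟩ := Submodule.exists_le_ker_of_lt_top W hWtop
  set q : I → Q := fun i => φ (Pi.single i 1) with hq
  have hφ : ∀ x : I → Q, φ x = ∑ i, q i * x i := by
    intro x
    have h1 : x = ∑ i, x i • (Pi.single i (1 : Q) : I → Q) := by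
      ext j
      rw [Finset.sum_apply, Finset.sum_eq_single j]
      · rw [Pi.smul_apply, Pi.single_eq_same, smul_eq_mul, mul_one]
      · intro i _ hi
        rw [Pi.smul_apply, Pi.single_eq_of_ne hi.symm, smul_zero]
      · intro h
        exact absurd (Finset.mem_univ _) h
    conv_lhs => rw [h1]
    rw [map_sum]
    exact Finset.sum_congr rfl fun i _ => by rw [map_smul, smul_eq_mul, mul_comm]
  obtain ⟨b, hb⟩ := IsLocalization.exist_integer_multiples_of_finite (nonZeroDivisors B) q
  choose c' hc' using hb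
  have hb0 : algebraMap B Q (b : B) ≠ 0 := by
    rw [Ne, IsFractionRing.to_map_eq_zero_iff]
    exact nonZeroDivisors.coe_ne_zero b
  refine ⟨c', ?_, ?_⟩
  · intro h
    apply hφ0
    apply LinearMap.ext
    intro x
    rw [hφ x, LinearMap.zero_apply]
    refine Finset.sum_eq_zero fun i _ => ?_
    have h1 := hc' i
    rw [h, Pi.zero_apply, map_zero, Algebra.smul_def] at h1
    rcases mul_eq_zero.1 h1.symm with h2 | h2
    · exact absurd h2 hb0
    · rw [h2, zero_mul]
  · intro l hl
    have h1 : (fun i => algebraMap B Q (l i)) ∈ W := Submodule.subset_span ⟨l, hl, rfl⟩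
    have h2 := hφW h1
    rw [LinearMap.mem_ker, hφ] at h2
    apply IsFractionRing.injective B Q
    rw [map_zero, map_sum]
    have h3 : ∀ i ∈ Finset.univ, algebraMap B Q (c' i * l i) =
        algebraMap B Q (b : B) * (q i * algebraMap B Q (l i)) := by
      intro i _
      rw [map_mul, hc' i, Algebra.smul_def]
      ring
    rw [Finset.sum_congr rfl h3, ← Finset.mul_sum, h2, mul_zero]

theorem alt_sum (u : ℕ) (hu : u ≠ 0) :
    ∑ i ∈ Finset.range (u + 1), (-1 : ℤ) ^ i * (u.choose i : ℤ) = 0 := by
  rw [Int.alternating_sum_range_choose, if_neg hu]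

theorem hasse_flip {k : Type} [Field k] (j : ℕ) (f h : LaurentSeries k) :
    f * LaurentSeries.hasseDeriv k j h = ∑ i ∈ Finset.range (j + 1),
      (-1 : ℤ) ^ i • LaurentSeries.hasseDeriv k (j - i) (LaurentSeries.hasseDeriv k i f * h) := by
  set D := LaurentSeries.hasseDeriv k (V := k) with hD
  have h1 : ∀ i ∈ Finset.range (j + 1), (-1 : ℤ) ^ i • D (j - i) (D i f * h) =
      ∑ u ∈ Finset.range (j + 1), if i ≤ u then
        ((-1 : ℤ) ^ i * (u.choose i : ℤ)) • (D u f * D (j - u) h) else 0 := by
    intro i hi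
    rw [Finset.mem_range] at hi
    rw [hD, P21.hasse_mul, Finset.smul_sum, ← Finset.sum_filter]
    refine Finset.sum_bij (fun p _ => p.1 + i) ?_ ?_ ?_ ?_
    · intro p hp
      rw [Finset.HasAntidiagonal.mem_antidiagonal] at hp
      rw [Finset.mem_filter, Finset.mem_range]
      omega
    · intro p hp p' hp' he
      rw [Finset.HasAntidiagonal.mem_antidiagonal] at hp hp'
      ext <;> omega
    · intro u hu
      rw [Finset.mem_filter, Finset.mem_range] at hu
      refine ⟨(u - i, j - u), ?_, ?_⟩
      · rw [Finset.HasAntidiagonal.mem_antidiagonal]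
        omega
      · simp only
        omega
    · intro p hp
      rw [Finset.HasAntidiagonal.mem_antidiagonal] at hp
      rw [LaurentSeries.hasseDeriv_comp]
      have e1 : j - (p.1 + i) = p.2 := by omega
      have e2 : (p.1 + i).choose p.1 = (p.1 + i).choose i := Nat.choose_symm_add
      rw [e1, e2, smul_mul_assoc, mul_smul, natCast_zsmul]
  rw [Finset.sum_congr rfl h1, Finset.sum_comm]
  have h2 : ∀ u ∈ Finset.range (j + 1), (∑ i ∈ Finset.range (j + 1), if i ≤ u then
        ((-1 : ℤ) ^ i * (u.choose i : ℤ)) • (D u f * D (j - u) h) else 0) =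
      if u = 0 then f * D j h else 0 := by
    intro u hu
    rw [Finset.mem_range] at hu
    rw [← Finset.sum_filter]
    have e : (Finset.range (j + 1)).filter (fun i => i ≤ u) = Finset.range (u + 1) := by
      ext i
      rw [Finset.mem_filter, Finset.mem_range, Finset.mem_range]
      omega
    rw [e, ← Finset.sum_smul]
    split_ifs with h0
    · subst h0
      rw [zero_add, Finset.sum_range_one, pow_zero, Nat.choose_self, Nat.cast_one, mul_one, one_smul,
        Nat.sub_zero]
      simp only [hD, LaurentSeries.hasseDeriv_zero, LinearMap.id_apply]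
    · rw [alt_sum u h0, zero_smul]
  rw [Finset.sum_congr rfl h2, Finset.sum_ite_eq', if_pos (Finset.mem_range.2 (by omega))]

theorem leib : S_leib := by
  intro k _ d γ h g hyp j hj
  have h1 : ∑ a, ∑ b, HahnSeries.C (g b a) * LaurentSeries.hasseDeriv k j (h a) * h b =
      ∑ a, ∑ b, HahnSeries.C (g a b) * (h a * LaurentSeries.hasseDeriv k j (h b)) := by
    rw [Finset.sum_comm]
    refine Finset.sum_congr rfl fun a _ => Finset.sum_congr rfl fun b _ => ?_
    ring
  have h2 : ∀ a b, HahnSeries.C (g a b) * (h a * LaurentSeries.hasseDeriv k j (h b)) =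
      ∑ i ∈ Finset.range (j + 1), (-1 : ℤ) ^ i • LaurentSeries.hasseDeriv k (j - i)
        (HahnSeries.C (g a b) * LaurentSeries.hasseDeriv k i (h a) * h b) := by
    intro a b
    rw [hasse_flip, Finset.mul_sum]
    refine Finset.sum_congr rfl fun i _ => ?_
    rw [mul_smul_comm, mul_assoc, HahnSeries.C_mul_eq_smul, HahnSeries.C_mul_eq_smul, map_smul]
  rw [h1]
  simp_rw [h2]
  have h3 : ∀ i ∈ Finset.range (j + 1), ∑ a, ∑ b, (-1 : ℤ) ^ i • LaurentSeries.hasseDeriv k (j - i)
        (HahnSeries.C (g a b) * LaurentSeries.hasseDeriv k i (h a) * h b) = 0 := by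
    intro i hi
    rw [Finset.mem_range] at hi
    have h4 := hyp i (by omega)
    simp_rw [← Finset.smul_sum, ← map_sum]
    rw [h4, map_zero, smul_zero]
  have h5 : ∑ a, ∑ b, ∑ i ∈ Finset.range (j + 1), (-1 : ℤ) ^ i • LaurentSeries.hasseDeriv k (j - i)
        (HahnSeries.C (g a b) * LaurentSeries.hasseDeriv k i (h a) * h b) =
      ∑ i ∈ Finset.range (j + 1), ∑ a, ∑ b, (-1 : ℤ) ^ i • LaurentSeries.hasseDeriv k (j - i)
        (HahnSeries.C (g a b) * LaurentSeries.hasseDeriv k i (h a) * h b) := by
    have h6 : ∀ a ∈ (Finset.univ : Finset (Fin d)), (∑ b, ∑ i ∈ Finset.range (j + 1),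
        (-1 : ℤ) ^ i • LaurentSeries.hasseDeriv k (j - i)
          (HahnSeries.C (g a b) * LaurentSeries.hasseDeriv k i (h a) * h b)) =
        ∑ i ∈ Finset.range (j + 1), ∑ b, (-1 : ℤ) ^ i • LaurentSeries.hasseDeriv k (j - i)
          (HahnSeries.C (g a b) * LaurentSeries.hasseDeriv k i (h a) * h b) :=
      fun a _ => Finset.sum_comm
    rw [Finset.sum_congr rfl h6, Finset.sum_comm]
  rw [h5]
  exact Finset.sum_eq_zero h3

end Pool.Agent.H390.AS
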